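import Mathlib

/-! Solutions of `y (n+2) = (α + y n) / (A + B y (n+1) + y n)`: positivity, comparison and
convergence of the even and odd subsequences. -/

open Filter Topology

namespace Pool.Agent.MP_a0c75d_an.H31

/-- parameters, with the equilibrium `e` and the two-cycle `m`, `M` -/
structure Par where
  α : ℝ
  A : ℝ
  B : ℝ
  e : ℝ
  m : ℝ
  M : ℝ
  hα : 0 < α
  hB : 1 < B
  hA : 0 ≤ A
  hm : 0 < m
  hmM : m < M
  hsum : m + M = 1 - A
  hprod : (B - 1) * (m * M) = α
  he : 0 < e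
  heq : e * (A + B * e + e) = α + e

namespace Par

variable (P : Par)

/-- `y` is a solution with admissible initial values -/
structure Sol (y : ℕ → ℝ) : Prop where
  h0 : 0 ≤ y 0
  h1 : 0 ≤ y 1
  hd : 0 < P.A + P.B * y 1 + y 0
  rec' : ∀ n, y (n + 2) = (P.α + y n) / (P.A + P.B * y (n + 1) + y n)

lemma B_pos : 0 < P.B := by linarith [P.hB]

lemma M_pos : 0 < P.M := P.hm.trans P.hmM

lemma M_lt_one : P.M < 1 := by linarith [P.hsum, P.hm, P.hA]

lemma m_lt_e : P.m < P.e := by
  by_contra h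
  rw [not_lt] at h
  have h1 := P.heq
  have h2 := P.hsum
  have h3 := P.hprod
  have h4 := P.hm
  have h5 := P.hmM
  have h6 := P.he
  have h7 := P.B_pos
  have e1 : P.A = 1 - P.m - P.M := by linarith
  rw [e1, ← h3] at h1
  have a1 : (P.e - P.m) * ((P.B + 1) * (P.e * P.m) + (P.B - 1) * (P.m * P.M)) =
      P.e * (P.B * (P.m * (P.M - P.m))) := by linear_combination P.m * h1
  have a2 : 0 < P.e * (P.B * (P.m * (P.M - P.m))) := by
    have := sub_pos.mpr h5
    positivity
  have a3 : 0 ≤ (P.B + 1) * (P.e * P.m) + (P.B - 1) * (P.m * P.M) := by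
    rw [h3]
    have := P.hα
    positivity
  nlinarith [mul_nonneg (sub_nonneg.mpr h) a3]

lemma two_e_lt : 2 * P.e < 1 - P.A := by
  by_contra h
  rw [not_lt, ← P.hsum] at h
  have h1 := P.heq
  have h3 := P.hprod
  have h4 := P.hm
  have h5 := P.hmM
  have h6 := P.he
  have h7 := P.hB
  have e1 : P.A = 1 - P.m - P.M := by linarith [P.hsum]
  rw [e1, ← h3] at h1
  have a1 : P.m * P.M < P.e * P.e := by nlinarith [sq_pos_of_pos (sub_pos.mpr h5)]
  have a2 : (P.B - 1) * (P.m * P.M) < (P.B - 1) * (P.e * P.e) :=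
    mul_lt_mul_of_pos_left a1 (by linarith)
  nlinarith

lemma e_lt_M : P.e < P.M := by linarith [P.two_e_lt, P.hsum, P.hmM]

lemma alpha_lt : P.α < P.A + P.B * P.m := by
  have h3 := P.hprod
  have h4 := P.hm
  have h5 := P.M_lt_one
  have h6 := P.hA
  have h7 := P.hB
  have h8 := P.M_pos
  have a1 : P.m * P.M < P.m := by nlinarith
  nlinarith [mul_pos h4 h8]

lemma alpha_lt_B : P.α < P.B := by
  have h3 := P.hprod
  have h4 := P.hm
  have h5 := P.M_lt_one
  have h7 := P.hB
  have h8 := P.hmM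
  have a1 : P.m * P.M < 1 := by nlinarith
  nlinarith [mul_pos h4 P.M_pos]

variable {P}

lemma Sol.aux {y : ℕ → ℝ} (h : P.Sol y) (n : ℕ) :
    0 ≤ y n ∧ 0 ≤ y (n + 1) ∧ 0 < P.A + P.B * y (n + 1) + y n := by
  induction n with
  | zero => exact ⟨h.h0, h.h1, h.hd⟩
  | succ n ih =>
    obtain ⟨a1, a2, a3⟩ := ih
    have a4 : 0 < y (n + 2) := by
      rw [h.rec']
      exact div_pos (by linarith [P.hα]) a3
    refine ⟨a2, a4.le, ?_⟩
    have := mul_pos P.B_pos a4
    linarith [P.hA]

lemma Sol.nonneg {y : ℕ → ℝ} (h : P.Sol y) (n : ℕ) : 0 ≤ y n := (h.aux n).1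

lemma Sol.den_pos {y : ℕ → ℝ} (h : P.Sol y) (n : ℕ) : 0 < P.A + P.B * y (n + 1) + y n :=
  (h.aux n).2.2

lemma Sol.mul_eq {y : ℕ → ℝ} (h : P.Sol y) (n : ℕ) :
    y (n + 2) * (P.A + P.B * y (n + 1) + y n) = P.α + y n := by
  rw [h.rec', div_mul_cancel₀ _ (h.den_pos n).ne']

lemma Sol.pos {y : ℕ → ℝ} (h : P.Sol y) (n : ℕ) : 0 < y (n + 2) := by
  rw [h.rec']
  exact div_pos (by linarith [P.hα, h.nonneg n]) (h.den_pos n)

lemma Sol.shift {y : ℕ → ℝ} (h : P.Sol y) (k : ℕ) : P.Sol fun n => y (n + k) := by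
  refine ⟨h.nonneg _, h.nonneg _, ?_, fun n => ?_⟩
  · have := h.den_pos k
    simpa [add_comm] using this
  · have := h.rec' (n + k)
    simpa [add_right_comm] using this

/-- the exact difference formula -/
lemma Sol.diff {x y : ℕ → ℝ} (hx : P.Sol x) (hy : P.Sol y) (n : ℕ) :
    y (n + 2) - x (n + 2) =
      (P.A + P.B * x (n + 1) - P.α) /
          ((P.A + P.B * x (n + 1) + x n) * (P.A + P.B * y (n + 1) + y n)) * (y n - x n) -
        P.B * (P.α + x n) /
          ((P.A + P.B * x (n + 1) + x n) * (P.A + P.B * y (n + 1) + y n)) *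
          (y (n + 1) - x (n + 1)) := by
  have a1 := (hx.den_pos n).ne'
  have a2 := (hy.den_pos n).ne'
  rw [hx.rec', hy.rec']
  field_simp
  ring

lemma Sol.diff' {x y : ℕ → ℝ} (hx : P.Sol x) (hy : P.Sol y) (s : ℝ) (n : ℕ) :
    s * (-1) ^ (n + 2) * (y (n + 2) - x (n + 2)) =
      (P.A + P.B * x (n + 1) - P.α) /
          ((P.A + P.B * x (n + 1) + x n) * (P.A + P.B * y (n + 1) + y n)) *
          (s * (-1) ^ n * (y n - x n)) +
        P.B * (P.α + x n) /
          ((P.A + P.B * x (n + 1) + x n) * (P.A + P.B * y (n + 1) + y n)) *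
          (s * (-1) ^ (n + 1) * (y (n + 1) - x (n + 1))) := by
  rw [hx.diff hy n]
  ring

/-- comparison with a solution that stays in the region of monotonicity -/
lemma Sol.compare {x y : ℕ → ℝ} (hx : P.Sol x) (hy : P.Sol y)
    (hmon : ∀ n, P.α ≤ P.A + P.B * x (n + 1)) (s : ℝ) (h0 : 0 ≤ s * (y 0 - x 0))
    (h1 : s * (y 1 - x 1) ≤ 0) (n : ℕ) : 0 ≤ s * (-1) ^ n * (y n - x n) := by
  have key : ∀ n, 0 ≤ s * (-1) ^ n * (y n - x n) ∧
      0 ≤ s * (-1) ^ (n + 1) * (y (n + 1) - x (n + 1)) := by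
    intro n
    induction n with
    | zero => exact ⟨by simpa using h0, by simpa using h1⟩
    | succ n ih =>
      refine ⟨ih.2, ?_⟩
      rw [hx.diff' hy s n]
      have d := mul_pos (hx.den_pos n) (hy.den_pos n)
      have a1 : 0 ≤ P.A + P.B * x (n + 1) - P.α := by linarith [hmon n]
      have a2 : 0 ≤ P.B * (P.α + x n) :=
        mul_nonneg P.B_pos.le (by linarith [P.hα, hx.nonneg n])
      exact add_nonneg (mul_nonneg (div_nonneg a1 d.le) ih.1) (mul_nonneg (div_nonneg a2 d.le) ih.2)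
  exact (key n).1

lemma limit_cases {p q : ℝ} (hp : 0 ≤ p)
    (h1 : p * (P.A + P.B * q + p) = P.α + p) (h2 : q * (P.A + P.B * p + q) = P.α + q) :
    (p = P.e ∧ q = P.e) ∨ (p = P.m ∧ q = P.M) ∨ (p = P.M ∧ q = P.m) := by
  have h3 : (p - q) * (P.A + p + q - 1) = 0 := by linear_combination h1 - h2
  rcases mul_eq_zero.mp h3 with h | h
  · have hpq : q = p := by linarith
    subst hpq
    left
    have h4 : (q - P.e) * ((P.B + 1) * (q * P.e) + P.α) = 0 := by
      linear_combination P.e * h1 - q * P.heq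
    have h5 : 0 < (P.B + 1) * (q * P.e) + P.α := by
      have := mul_nonneg (by linarith [P.B_pos] : 0 ≤ P.B + 1) (mul_nonneg hp P.he.le)
      linarith [P.hα]
    have := (mul_eq_zero.mp h4).resolve_right h5.ne'
    exact ⟨by linarith, by linarith⟩
  · right
    have h4 : (P.B - 1) * ((p - P.m) * (p - P.M)) = 0 := by
      have e1 : q = P.m + P.M - p := by linarith [P.hsum]
      have e2 : P.A = 1 - P.m - P.M := by linarith [P.hsum]
      rw [e1, e2, ← P.hprod] at h1
      linear_combination -h1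
    rcases mul_eq_zero.mp ((mul_eq_zero.mp h4).resolve_left (by linarith [P.hB])) with h5 | h5
    · left; exact ⟨by linarith, by linarith [P.hsum]⟩
    · right; exact ⟨by linarith, by linarith [P.hsum]⟩

lemma Sol.limit_eqs {y : ℕ → ℝ} (h : P.Sol y) {p q : ℝ}
    (hp : Tendsto (fun k => y (2 * k)) atTop (𝓝 p))
    (hq : Tendsto (fun k => y (2 * k + 1)) atTop (𝓝 q)) :
    p * (P.A + P.B * q + p) = P.α + p ∧ q * (P.A + P.B * p + q) = P.α + q := by
  have hp' : Tendsto (fun k => y (2 * k + 2)) atTop (𝓝 p) :=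
    (tendsto_add_atTop_iff_nat (f := fun k => y (2 * k)) 1).mpr hp
  have hq' : Tendsto (fun k => y (2 * k + 1 + 2)) atTop (𝓝 q) :=
    (tendsto_add_atTop_iff_nat (f := fun k => y (2 * k + 1)) 1).mpr hq
  constructor
  · refine tendsto_nhds_unique (hp'.mul (((hq.const_mul P.B).const_add P.A).add hp)) ?_
    simp_rw [h.mul_eq]
    exact hp.const_add _
  · refine tendsto_nhds_unique (hq'.mul (((hp'.const_mul P.B).const_add P.A).add hq)) ?_
    have : ∀ k, y (2 * k + 1 + 2) * (P.A + P.B * y (2 * k + 2) + y (2 * k + 1)) =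
        P.α + y (2 * k + 1) := fun k => h.mul_eq (2 * k + 1)
    simp_rw [this]
    exact hq.const_add _

end Par

lemma tendsto_of_sign {a : ℕ → ℝ} {s C : ℝ} (hs : s = 1 ∨ s = -1) (hb : ∀ k, |a k| ≤ C) {N : ℕ}
    (h : ∀ k, N ≤ k → 0 ≤ s * (a (k + 1) - a k)) : ∃ p, Tendsto a atTop (𝓝 p) := by
  have hm : Monotone fun k => s * a (k + N) := monotone_nat_of_le_succ fun k => by
    have := h (k + N) (Nat.le_add_left _ _)
    rw [add_right_comm]
    linarith
  have hbd : BddAbove (Set.range fun k => s * a (k + N)) := by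
    refine ⟨C, ?_⟩
    rintro _ ⟨k, rfl⟩
    have := abs_le.mp (hb (k + N))
    rcases hs with rfl | rfl <;> simp only <;> linarith [this.1, this.2]
  have h1 := (tendsto_atTop_ciSup hm hbd).const_mul s
  have h2 : ∀ k, s * (s * a (k + N)) = a (k + N) := by
    intro k
    rcases hs with rfl | rfl <;> ring
  simp_rw [h2] at h1
  exact ⟨_, (tendsto_add_atTop_iff_nat N).mp h1⟩

namespace Par

variable {P : Par}

lemma Sol.conv_of_region {y : ℕ → ℝ} (h : P.Sol y) (hmon : ∀ n, P.α ≤ P.A + P.B * y (n + 1))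
    {C : ℝ} (hb : ∀ n, |y n| ≤ C) :
    (∃ p, Tendsto (fun k => y (2 * k)) atTop (𝓝 p)) ∧
      ∃ q, Tendsto (fun k => y (2 * k + 1)) atTop (𝓝 q) := by
  by_cases hc : ∃ N, ∃ s : ℝ, (s = 1 ∨ s = -1) ∧ 0 ≤ s * (y (N + 2) - y N) ∧
      s * (y (N + 3) - y (N + 1)) ≤ 0
  · obtain ⟨N, s, hs, a1, a2⟩ := hc
    have key := (h.shift N).compare (h.shift (N + 2)) (fun n => by
      have := hmon (n + N); rwa [add_right_comm] at this) s (by simpa using a1)
      (by simpa [← add_assoc, add_comm 1 N] using a2)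
    have key2 : ∀ n, N ≤ n → 0 ≤ s * (-1) ^ N * (-1) ^ n * (y (n + 2) - y n) := by
      intro n hn
      obtain ⟨j, rfl⟩ := Nat.exists_eq_add_of_le' hn
      have := key j
      rw [← add_assoc] at this
      have e : s * (-1) ^ N * (-1) ^ (j + N) = s * (-1) ^ j * ((-1) ^ N) ^ 2 := by ring
      rw [e, ← pow_mul, mul_comm N 2, pow_mul]
      simpa using this
    have hs' : s * (-1) ^ N = 1 ∨ s * (-1) ^ N = -1 := by
      rcases hs with rfl | rfl <;> rcases neg_one_pow_eq_or ℝ N with h | h <;> simp [h]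
    constructor
    · refine tendsto_of_sign hs' (fun k => hb _) (N := N) fun k hk => ?_
      have := key2 (2 * k) (by omega)
      rw [pow_mul] at this
      simpa [mul_add] using this
    · refine tendsto_of_sign (s := -(s * (-1) ^ N)) (hs'.symm.imp (by simp +contextual)
        (by simp +contextual)) (fun k => hb _) (N := N) fun k hk => ?_
      have := key2 (2 * k + 1) (by omega)
      rw [pow_succ, pow_mul] at this
      have e : 2 * (k + 1) + 1 = 2 * k + 1 + 2 := by ring
      rw [e]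
      simp only [even_two, Even.neg_pow, one_pow, one_mul] at this
      linarith
  · push Not at hc
    have hs : ∃ s : ℝ, (s = 1 ∨ s = -1) ∧ ∀ n, 0 ≤ s * (y (n + 2) - y n) := by
      rcases le_total 0 (y 2 - y 0) with h0 | h0
      · refine ⟨1, Or.inl rfl, fun n => ?_⟩
        induction n with
        | zero => simpa using h0
        | succ n ih => exact (hc n 1 (Or.inl rfl) ih).le
      · refine ⟨-1, Or.inr rfl, fun n => ?_⟩
        induction n with
        | zero => simpa using h0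
        | succ n ih => exact (hc n (-1) (Or.inr rfl) ih).le
    obtain ⟨s, hs1, hs2⟩ := hs
    exact ⟨tendsto_of_sign hs1 (fun k => hb _) (N := 0) fun k _ => hs2 (2 * k),
      tendsto_of_sign hs1 (fun k => hb _) (N := 0) fun k _ => hs2 (2 * k + 1)⟩

lemma Sol.le_one {y : ℕ → ℝ} (h : P.Sol y) {n : ℕ} (hn : P.α ≤ P.A + P.B * y (n + 1)) :
    y (n + 2) ≤ 1 := by
  rw [h.rec', div_le_one (h.den_pos n)]
  linarith

lemma Sol.one_le {y : ℕ → ℝ} (h : P.Sol y) {n : ℕ} (hn : P.A + P.B * y (n + 1) ≤ P.α) :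
    1 ≤ y (n + 2) := by
  rw [h.rec', one_le_div (h.den_pos n)]
  linarith

lemma Sol.region_of_le_one {y : ℕ → ℝ} (h : P.Sol y) {n : ℕ} (hn : y (n + 1) ≤ 1) :
    P.α ≤ P.A + P.B * y (n + 2) := by
  have a1 := h.mul_eq n
  have a2 := h.den_pos n
  have a3 := h.nonneg n
  have a4 := h.nonneg (n + 1)
  have a5 := P.alpha_lt_B
  have a6 := P.hA
  have a7 := P.B_pos
  by_contra hc
  rw [not_le] at hc
  have b1 : P.B * y (n + 2) * (P.A + P.B * y (n + 1) + y n) <
      (P.α - P.A) * (P.A + P.B * y (n + 1) + y n) := mul_lt_mul_of_pos_right (by linarith) a2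
  have b2 : 0 < P.α - P.A := by
    have := mul_pos a7 (h.pos n)
    linarith
  have b3 : (P.α - P.A) * (P.B * y (n + 1)) ≤ (P.α - P.A) * (P.B * 1) := by gcongr
  rw [mul_assoc, a1] at b1
  nlinarith [mul_nonneg (by linarith : 0 ≤ P.B - P.α + P.A) (add_nonneg a6 a3)]

lemma Sol.no_alternation {y : ℕ → ℝ} (h : P.Sol y) (h1 : ∀ k, 1 < y (2 * k + 1))
    (h2 : ∀ k, P.A + P.B * y (2 * k + 2) < P.α) : False := by
  have hB := P.B_pos
  have hA := P.hA
  have hα := P.hα
  have hanti : ∀ k, y (2 * (k + 1) + 1) ≤ y (2 * k + 1) := by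
    intro k
    have a1 := h.mul_eq (2 * k)
    have a2 := h.mul_eq (2 * k + 1)
    have a3 := h.den_pos (2 * k + 1)
    have a4 := h1 k
    have a5 := h.nonneg (2 * k)
    have a6 := h.pos (2 * k)
    have a7 := P.alpha_lt_B
    have a8 : y (2 * k + 2) < 1 := by
      have := h2 k
      nlinarith
    have e : 2 * (k + 1) + 1 = 2 * k + 1 + 2 := by ring
    rw [e]
    set u := y (2 * k + 1)
    set z := y (2 * k + 2)
    have b1 : P.α ≤ z * (P.A + P.B * u) := by nlinarith
    have b2 : P.α + u ≤ u * (P.A + P.B * z + u) := by nlinarith [mul_nonneg hA (by linarith : 0 ≤ u - z)]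
    by_contra hc
    rw [not_le] at hc
    nlinarith
  have hb : ∀ k, |y (2 * k + 1)| ≤ y 1 := by
    intro k
    rw [abs_of_nonneg (h.nonneg _)]
    exact antitone_nat_of_succ_le (f := fun k => y (2 * k + 1)) hanti (Nat.zero_le k)
  obtain ⟨q, hq⟩ := tendsto_of_sign (a := fun k => y (2 * k + 1)) (s := -1) (Or.inr rfl) hb (N := 0)
    fun k _ => by linarith [hanti k]
  have hq1 : 1 ≤ q := ge_of_tendsto' hq fun k => (h1 k).le
  have hq' : Tendsto (fun k => y (2 * k + 1 + 2)) atTop (𝓝 q) :=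
    (tendsto_add_atTop_iff_nat (f := fun k => y (2 * k + 1)) 1).mpr hq
  have hp' : Tendsto (fun k => y (2 * k + 2)) atTop (𝓝 (((P.α + q) / q - P.A - q) / P.B)) := by
    have := ((((hq.const_add P.α).div hq' (by linarith)).sub_const P.A).sub hq).div_const P.B
    refine this.congr fun k => ?_
    have a1 := h.mul_eq (2 * k + 1)
    have a2 := (h.pos (2 * k + 1)).ne'
    simp only [Pi.div_apply]
    rw [← a1]
    field_simp
    ring
  have hp := (tendsto_add_atTop_iff_nat (f := fun k => y (2 * k)) 1).mp hp'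
  obtain ⟨c1, c2⟩ := h.limit_eqs hp hq
  have hp0 := ge_of_tendsto' hp fun k => h.nonneg _
  have := P.M_lt_one
  have := P.e_lt_M
  have := P.hmM
  rcases limit_cases hp0 c1 c2 with c | c | c <;> linarith [c.2]

theorem Sol.conv {y : ℕ → ℝ} (h : P.Sol y) : ∃ p q : ℝ,
    Tendsto (fun k => y (2 * k)) atTop (𝓝 p) ∧ Tendsto (fun k => y (2 * k + 1)) atTop (𝓝 q) ∧
      ((p = P.e ∧ q = P.e) ∨ (p = P.m ∧ q = P.M) ∨ (p = P.M ∧ q = P.m)) := by
  have hex : ∃ n, P.α ≤ P.A + P.B * y (n + 1) ∧ y (n + 1) ≤ 1 := by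
    by_contra hc
    push Not at hc
    have step : ∀ n, 1 < y (n + 1) → P.A + P.B * y (n + 2) < P.α ∧ 1 < y (n + 3) := by
      intro n hn
      have a1 : P.α ≤ P.A + P.B * y (n + 1) := by
        nlinarith [P.alpha_lt_B, P.hA, P.B_pos]
      have a2 := h.le_one a1
      have a3 : P.A + P.B * y (n + 2) < P.α := by
        by_contra a3
        exact absurd (hc (n + 1) (not_lt.mp a3)) (not_lt.mpr a2)
      exact ⟨a3, hc (n + 2) (h.region_of_le_one a2)⟩
    have all : ∀ N, 1 < y (N + 1) → False := by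
      intro N hN
      have a1 : ∀ k, 1 < y (2 * k + 1 + N) := by
        intro k
        induction k with
        | zero => simpa [add_comm] using hN
        | succ k ih =>
          have := (step (2 * k + N) (by rwa [add_right_comm] at ih)).2
          convert this using 2
          ring
      refine (h.shift N).no_alternation a1 fun k => ?_
      have := (step (2 * k + N) (by have := a1 k; rwa [add_right_comm] at this)).1
      convert this using 4
      ring
    by_cases h1 : 1 < y 1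
    · exact all 0 h1
    · exact all 1 (hc 1 (h.region_of_le_one (not_lt.mp h1)))
  obtain ⟨N, hN⟩ := hex
  have hall : ∀ n, P.α ≤ P.A + P.B * y (n + N + 1) ∧ y (n + N + 1) ≤ 1 := by
    intro n
    induction n with
    | zero => simpa using hN
    | succ n ih =>
      rw [add_right_comm n 1 N]
      exact ⟨h.region_of_le_one ih.2, h.le_one ih.1⟩
  obtain ⟨⟨p, hp⟩, ⟨q, hq⟩⟩ := (h.shift (2 * (N + 1))).conv_of_region (C := 1)
    (fun n => by
      have := (hall (n + N + 2)).1
      convert this using 4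
      ring)
    (fun n => by
      rw [abs_of_nonneg (h.nonneg _)]
      have := (hall (n + N + 1)).2
      convert this using 2
      ring)
  have hp' : Tendsto (fun k => y (2 * k)) atTop (𝓝 p) := by
    refine (tendsto_add_atTop_iff_nat (N + 1)).mp (hp.congr fun k => ?_)
    congr 1
    ring
  have hq' : Tendsto (fun k => y (2 * k + 1)) atTop (𝓝 q) := by
    refine (tendsto_add_atTop_iff_nat (N + 1)).mp (hq.congr fun k => ?_)
    congr 1
    ring
  obtain ⟨c1, c2⟩ := h.limit_eqs hp' hq'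
  exact ⟨p, q, hp', hq', limit_cases (ge_of_tendsto' hp' fun k => h.nonneg _) c1 c2⟩

end Par

end Pool.Agent.MP_a0c75d_an.H31
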