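import Mathlib
import Pool.Agent.MP_a0c75d_an.H31.Basic

/-! The stable set of the equilibrium is the graph of a continuous increasing function. -/

open Filter Topology Set

namespace Pool.Agent.MP_a0c75d_an.H31

lemma tendsto_of_even_odd {y : ℕ → ℝ} {l : ℝ} (h1 : Tendsto (fun k => y (2 * k)) atTop (𝓝 l))
    (h2 : Tendsto (fun k => y (2 * k + 1)) atTop (𝓝 l)) : Tendsto y atTop (𝓝 l) := by
  intro U hU
  obtain ⟨N1, a1⟩ := mem_atTop_sets.mp (mem_map.mp (h1 hU))
  obtain ⟨N2, a2⟩ := mem_atTop_sets.mp (mem_map.mp (h2 hU))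
  refine mem_map.mpr (mem_atTop_sets.mpr ⟨2 * (N1 + N2), fun n hn => ?_⟩)
  obtain ⟨k, rfl | rfl⟩ := Nat.even_or_odd' n
  · exact a1 k (by omega)
  · exact a2 k (by omega)

lemma tendsto_even {y : ℕ → ℝ} {l : ℝ} (h : Tendsto y atTop (𝓝 l)) :
    Tendsto (fun k => y (2 * k)) atTop (𝓝 l) :=
  h.comp (tendsto_atTop_mono (fun k => by simp only [id]; omega) tendsto_id)

lemma tendsto_odd {y : ℕ → ℝ} {l : ℝ} (h : Tendsto y atTop (𝓝 l)) :
    Tendsto (fun k => y (2 * k + 1)) atTop (𝓝 l) :=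
  h.comp (tendsto_atTop_mono (fun k => by simp only [id]; omega) tendsto_id)

namespace Par

variable (P : Par)

/-- convergence to the equilibrium -/
def W (y : ℕ → ℝ) : Prop := Tendsto y atTop (𝓝 P.e)

/-- even terms tend to `m`, odd terms to `M` -/
def Up (y : ℕ → ℝ) : Prop :=
  Tendsto (fun k => y (2 * k)) atTop (𝓝 P.m) ∧ Tendsto (fun k => y (2 * k + 1)) atTop (𝓝 P.M)

/-- even terms tend to `M`, odd terms to `m` -/
def Dn (y : ℕ → ℝ) : Prop :=
  Tendsto (fun k => y (2 * k)) atTop (𝓝 P.M) ∧ Tendsto (fun k => y (2 * k + 1)) atTop (𝓝 P.m)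

lemma den_e : 0 < P.A + P.B * P.e + P.e := by
  have := mul_pos P.B_pos P.he
  linarith [P.hA, P.he]

lemma sol_const : P.Sol fun _ => P.e :=
  ⟨P.he.le, P.he.le, P.den_e, fun _ => by rw [eq_div_iff P.den_e.ne', P.heq]⟩

/-- the two-cycle -/
def cyc (n : ℕ) : ℝ := if n % 2 = 0 then P.m else P.M

lemma sol_cyc : P.Sol P.cyc := by
  have d1 : 0 < P.A + P.B * P.M + P.m := by
    have := mul_pos P.B_pos P.M_pos
    linarith [P.hA, P.hm]
  have d2 : 0 < P.A + P.B * P.m + P.M := by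
    have := mul_pos P.B_pos P.hm
    linarith [P.hA, P.M_pos]
  refine ⟨P.hm.le, P.M_pos.le, d1, fun n => ?_⟩
  rcases Nat.mod_two_eq_zero_or_one n with h | h
  · have e1 : (n + 2) % 2 = 0 := by omega
    have e2 : ¬(n + 1) % 2 = 0 := by omega
    simp only [cyc, if_pos h, if_pos e1, if_neg e2]
    rw [eq_div_iff d1.ne']
    linear_combination P.hprod + P.m * P.hsum
  · have e0 : ¬n % 2 = 0 := by omega
    have e1 : ¬(n + 2) % 2 = 0 := by omega
    have e2 : (n + 1) % 2 = 0 := by omega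
    simp only [cyc, if_neg e0, if_neg e1, if_pos e2]
    rw [eq_div_iff d2.ne']
    linear_combination P.hprod + P.M * P.hsum

variable {P}

lemma Sol.tri {y : ℕ → ℝ} (h : P.Sol y) : P.W y ∨ P.Up y ∨ P.Dn y := by
  obtain ⟨p, q, hp, hq, ⟨rfl, rfl⟩ | ⟨rfl, rfl⟩ | ⟨rfl, rfl⟩⟩ := h.conv
  · exact Or.inl (tendsto_of_even_odd hp hq)
  · exact Or.inr (Or.inl ⟨hp, hq⟩)
  · exact Or.inr (Or.inr ⟨hp, hq⟩)

lemma not_W_Up {y : ℕ → ℝ} (h1 : P.W y) (h2 : P.Up y) : False :=
  P.m_lt_e.ne' (tendsto_nhds_unique (tendsto_even h1) h2.1)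

lemma not_W_Dn {y : ℕ → ℝ} (h1 : P.W y) (h2 : P.Dn y) : False :=
  P.m_lt_e.ne' (tendsto_nhds_unique (tendsto_odd h1) h2.2)

lemma not_Up_Dn {y : ℕ → ℝ} (h1 : P.Up y) (h2 : P.Dn y) : False :=
  P.hmM.ne (tendsto_nhds_unique h1.1 h2.1)

lemma W.shift {y : ℕ → ℝ} (h : P.W y) (k : ℕ) : P.W fun n => y (n + k) :=
  (tendsto_add_atTop_iff_nat k).mpr h

lemma Sol.W_region {y : ℕ → ℝ} (h : P.Sol y) (hW : P.W y) (n : ℕ) :
    P.α < P.A + P.B * y (n + 1) := by
  by_contra hc
  rw [not_lt] at hc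
  have a1 : y (n + 1) ≤ P.m := by
    have := P.alpha_lt
    have := P.B_pos
    nlinarith
  have a2 := h.one_le hc
  have key := P.sol_cyc.compare (h.shift (n + 1)) (fun k => by
    have := P.alpha_lt
    have := mul_le_mul_of_nonneg_left P.hmM.le P.B_pos.le
    unfold cyc
    split_ifs <;> linarith) (-1) (by simp [cyc, a1]) (by
      have : 1 + (n + 1) = n + 2 := by ring
      simp only [this, cyc]
      have := P.M_lt_one
      simp
      linarith)
  have a3 : P.e ≤ P.m := le_of_tendsto' (tendsto_even (hW.shift (n + 1))) fun k => by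
    have := key (2 * k)
    simp [cyc] at this
    exact this
  exact absurd P.m_lt_e (not_lt.mpr a3)

lemma Sol.W_unique {x y : ℕ → ℝ} (hx : P.Sol x) (hy : P.Sol y) (wx : P.W x) (wy : P.W y)
    (h0 : y 0 ≤ x 0) (h1 : x 1 ≤ y 1) : y 0 = x 0 ∧ y 1 = x 1 := by
  have hmon := hx.W_region wx
  set δ : ℕ → ℝ := fun n => (-1) * (-1) ^ n * (y n - x n) with hδ
  have hδ0 : ∀ n, 0 ≤ δ n := hx.compare hy (fun n => (hmon n).le) (-1) (by linarith) (by linarith)
  set p : ℕ → ℝ := fun n => (P.A + P.B * x (n + 1) - P.α) /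
    ((P.A + P.B * x (n + 1) + x n) * (P.A + P.B * y (n + 1) + y n)) with hp
  set q : ℕ → ℝ := fun n => P.B * (P.α + x n) /
    ((P.A + P.B * x (n + 1) + x n) * (P.A + P.B * y (n + 1) + y n)) with hq
  have hrec : ∀ n, δ (n + 2) = p n * δ n + q n * δ (n + 1) := hx.diff' hy (-1)
  have hp0 : ∀ n, 0 < p n := fun n =>
    div_pos (by linarith [hmon n]) (mul_pos (hx.den_pos n) (hy.den_pos n))
  have hq0 : ∀ n, 0 < q n := fun n =>
    div_pos (mul_pos P.B_pos (by linarith [P.hα, hx.nonneg n]))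
      (mul_pos (hx.den_pos n) (hy.den_pos n))
  by_contra hne
  have h2 : 0 < δ 2 := by
    rw [hrec 0]
    have a0 : δ 0 = x 0 - y 0 := by simp [hδ]
    have a1 : δ (0 + 1) = y 1 - x 1 := by simp [hδ]
    rw [not_and_or] at hne
    rcases hne with h | h
    · exact add_pos_of_pos_of_nonneg (mul_pos (hp0 0) (by rw [a0]; exact sub_pos.mpr (h0.lt_of_ne h)))
        (mul_nonneg (hq0 0).le (hδ0 _))
    · exact add_pos_of_nonneg_of_pos (mul_nonneg (hp0 0).le (hδ0 _))
        (mul_pos (hq0 0) (by rw [a1]; exact sub_pos.mpr (h1.lt_of_ne (Ne.symm h))))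
  have hpos : ∀ n, 0 < δ (n + 2) := by
    intro n
    induction n with
    | zero => exact h2
    | succ n ih =>
      rw [hrec]
      exact add_pos_of_nonneg_of_pos (mul_nonneg (hp0 _).le (hδ0 _)) (mul_pos (hq0 _) ih)
  have wx1 : Tendsto (fun n => x (n + 1)) atTop (𝓝 P.e) := wx.shift 1
  have wy1 : Tendsto (fun n => y (n + 1)) atTop (𝓝 P.e) := wy.shift 1
  have hD := P.den_e
  have tD := (((wx1.const_mul P.B).const_add P.A).add wx).mul
    (((wy1.const_mul P.B).const_add P.A).add wy)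
  have tp := (((wx1.const_mul P.B).const_add P.A).sub_const P.α).div tD (by positivity)
  have tq := ((Tendsto.const_add P.α wx).const_mul P.B).div tD (by positivity)
  have hlim : 1 < (P.A + P.B * P.e - P.α) / ((P.A + P.B * P.e + P.e) * (P.A + P.B * P.e + P.e)) +
      P.B * (P.α + P.e) / ((P.A + P.B * P.e + P.e) * (P.A + P.B * P.e + P.e)) := by
    rw [← add_div, one_lt_div (by positivity)]
    have e1 : P.A + P.B * P.e - P.α + P.B * (P.α + P.e) =
        (P.A + P.B * P.e + P.e) * (1 - P.e + P.B * P.e) := by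
      linear_combination (1 - P.B) * P.heq
    rw [e1]
    apply mul_lt_mul_of_pos_left _ hD
    linarith [P.two_e_lt]
  obtain ⟨N, hN⟩ := eventually_atTop.mp ((tp.add tq).eventually (lt_mem_nhds hlim))
  set μ := min (δ (N + 2)) (δ (N + 3)) with hμ
  have hμ0 : 0 < μ := lt_min (hpos N) (hpos (N + 1))
  have hlow : ∀ k, μ ≤ δ (k + (N + 2)) ∧ μ ≤ δ (k + (N + 2) + 1) := by
    intro k
    induction k with
    | zero =>
      rw [zero_add]
      exact ⟨min_le_left _ _, min_le_right _ _⟩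
    | succ k ih =>
      rw [add_right_comm k 1]
      refine ⟨ih.2, ?_⟩
      rw [hrec]
      have a1 : 1 < p (k + (N + 2)) + q (k + (N + 2)) := hN _ (by omega)
      have a2 := mul_le_mul_of_nonneg_left ih.1 (hp0 (k + (N + 2))).le
      have a3 := mul_le_mul_of_nonneg_left ih.2 (hq0 (k + (N + 2))).le
      nlinarith
  have tδ : Tendsto (fun n => |y n - x n|) atTop (𝓝 0) := by
    simpa using (Tendsto.sub wy wx).abs
  have := ge_of_tendsto' ((tendsto_add_atTop_iff_nat (N + 2)).mpr tδ) fun k => (hlow k).1.trans (by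
    refine (le_abs_self _).trans (le_of_eq ?_)
    simp [hδ, abs_mul])
  exact absurd hμ0 (not_lt.mpr this)

lemma Sol.up_of_le {x y : ℕ → ℝ} (hx : P.Sol x) (hy : P.Sol y) (wx : P.W x)
    (h0 : y 0 ≤ x 0) (h1 : x 1 ≤ y 1) (hne : ¬(y 0 = x 0 ∧ y 1 = x 1)) : P.Up y := by
  rcases hy.tri with h | h | h
  · exact absurd (hx.W_unique hy wx h h0 h1) hne
  · exact h
  · exfalso
    have key := hx.compare hy (fun n => (hx.W_region wx n).le) (-1) (by linarith) (by linarith)
    have := le_of_tendsto_of_tendsto' h.1 (tendsto_even wx) fun k => by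
      have := key (2 * k)
      simp at this
      exact this
    exact absurd P.e_lt_M (not_lt.mpr this)

lemma Sol.dn_of_le {x y : ℕ → ℝ} (hx : P.Sol x) (hy : P.Sol y) (wx : P.W x)
    (h0 : x 0 ≤ y 0) (h1 : y 1 ≤ x 1) (hne : ¬(x 0 = y 0 ∧ x 1 = y 1)) : P.Dn y := by
  rcases hy.tri with h | h | h
  · exact absurd (hy.W_unique hx h wx h0 h1) hne
  · exfalso
    have key := hx.compare hy (fun n => (hx.W_region wx n).le) 1 (by linarith) (by linarith)
    have := le_of_tendsto_of_tendsto' (tendsto_even wx) h.1 fun k => by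
      have := key (2 * k)
      simp at this
      exact this
    exact absurd P.m_lt_e (not_lt.mpr this)
  · exact h

lemma Sol.up_shift {y : ℕ → ℝ} (h : P.Sol y) {k : ℕ} (h1 : y k < P.e) (h2 : P.e < y (k + 1)) :
    P.Up fun n => y (n + k) :=
  P.sol_const.up_of_le (h.shift k) tendsto_const_nhds (by simpa using h1.le)
    (by simpa [add_comm] using h2.le) (by simp [h1.ne])

lemma Sol.up_iff {y : ℕ → ℝ} (h : P.Sol y) :
    P.Up y ↔ ∃ k, y (2 * k) < P.e ∧ P.e < y (2 * k + 1) := by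
  constructor
  · intro hU
    exact ((hU.1.eventually (gt_mem_nhds P.m_lt_e)).and
      (hU.2.eventually (lt_mem_nhds P.e_lt_M))).exists
  · rintro ⟨k, h1, h2⟩
    obtain ⟨a1, a2⟩ := h.up_shift h1 h2
    constructor
    · refine (tendsto_add_atTop_iff_nat k).mp (a1.congr fun j => ?_)
      exact congrArg y (by ring)
    · refine (tendsto_add_atTop_iff_nat k).mp (a2.congr fun j => ?_)
      exact congrArg y (by ring)

lemma Sol.dn_iff {y : ℕ → ℝ} (h : P.Sol y) :
    P.Dn y ↔ ∃ k, y (2 * k + 1) < P.e ∧ P.e < y (2 * k + 2) := by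
  constructor
  · intro hU
    exact ((hU.2.eventually (gt_mem_nhds P.m_lt_e)).and
      (((tendsto_add_atTop_iff_nat (f := fun k => y (2 * k)) 1).mpr hU.1).eventually
        (lt_mem_nhds P.e_lt_M))).exists
  · rintro ⟨k, h1, h2⟩
    obtain ⟨a1, a2⟩ := h.up_shift h1 h2
    constructor
    · refine (tendsto_add_atTop_iff_nat (k + 1)).mp (a2.congr fun j => ?_)
      exact congrArg y (by ring)
    · refine (tendsto_add_atTop_iff_nat k).mp (a1.congr fun j => ?_)
      exact congrArg y (by ring)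

variable (P)

/-- consecutive terms of the solution with given initial values -/
noncomputable def orbP (z : ℝ × ℝ) : ℕ → ℝ × ℝ
  | 0 => z
  | n + 1 => ((orbP z n).2, (P.α + (orbP z n).1) / (P.A + P.B * (orbP z n).2 + (orbP z n).1))

/-- the solution with given initial values -/
noncomputable def orb (z : ℝ × ℝ) (n : ℕ) : ℝ := (P.orbP z n).1

/-- admissible initial values -/
def Adm : Set (ℝ × ℝ) := {z | 0 ≤ z.1 ∧ 0 ≤ z.2 ∧ 0 < P.A + P.B * z.2 + z.1}

lemma orb_zero (z : ℝ × ℝ) : P.orb z 0 = z.1 := rfl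

lemma orb_one (z : ℝ × ℝ) : P.orb z 1 = z.2 := rfl

variable {P}

lemma orb_sol {z : ℝ × ℝ} (hz : z ∈ P.Adm) : P.Sol (P.orb z) :=
  ⟨hz.1, hz.2.1, hz.2.2, fun _ => rfl⟩

lemma orb_cont (n : ℕ) : ContinuousOn (fun z => P.orb z n) P.Adm := by
  have key : ∀ n, ContinuousOn (fun z => P.orb z n) P.Adm ∧
      ContinuousOn (fun z => P.orb z (n + 1)) P.Adm := by
    intro n
    induction n with
    | zero => exact ⟨continuousOn_fst, continuousOn_snd⟩
    | succ n ih =>
      refine ⟨ih.2, ?_⟩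
      exact (continuousOn_const.add ih.1).div
        ((continuousOn_const.add (continuousOn_const.mul ih.2)).add ih.1)
        fun z hz => ((orb_sol hz).den_pos n).ne'
  exact (key n).1

lemma up_open {z : ℝ × ℝ} (hz : z ∈ P.Adm) (h : P.Up (P.orb z)) :
    ∀ᶠ w in 𝓝[P.Adm] z, P.Up (P.orb w) := by
  obtain ⟨k, h1, h2⟩ := (orb_sol hz).up_iff.mp h
  filter_upwards [(orb_cont (2 * k) z hz).eventually (gt_mem_nhds h1),
    (orb_cont (2 * k + 1) z hz).eventually (lt_mem_nhds h2), self_mem_nhdsWithin] with w a1 a2 a3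
  exact (orb_sol a3).up_iff.mpr ⟨k, a1, a2⟩

lemma dn_open {z : ℝ × ℝ} (hz : z ∈ P.Adm) (h : P.Dn (P.orb z)) :
    ∀ᶠ w in 𝓝[P.Adm] z, P.Dn (P.orb w) := by
  obtain ⟨k, h1, h2⟩ := (orb_sol hz).dn_iff.mp h
  filter_upwards [(orb_cont (2 * k + 1) z hz).eventually (gt_mem_nhds h1),
    (orb_cont (2 * k + 2) z hz).eventually (lt_mem_nhds h2), self_mem_nhdsWithin] with w a1 a2 a3
  exact (orb_sol a3).dn_iff.mpr ⟨k, a1, a2⟩

lemma adm_of_pos {u v : ℝ} (hu : 0 ≤ u) (hv : 0 < v) : (u, v) ∈ P.Adm := by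
  refine ⟨hu, hv.le, ?_⟩
  have := mul_pos P.B_pos hv
  simp only
  linarith [P.hA]

lemma exists_up {u : ℝ} (hu : 0 ≤ u) : ∃ v, P.e < v ∧ P.Up (P.orb (u, v)) := by
  set v := max (P.e + 1) ((P.α + u) / (P.B * P.e) + 1) with hv
  have h1 : P.e < v := lt_of_lt_of_le (by linarith) (le_max_left _ _)
  have hs := orb_sol (adm_of_pos (P := P) hu (P.he.trans h1))
  refine ⟨v, h1, hs.up_iff.mpr ⟨1, ?_⟩⟩
  have hBe := mul_pos P.B_pos P.he
  have h2 : P.α + u < v * (P.B * P.e) := by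
    rw [← div_lt_iff₀ hBe]
    exact lt_of_lt_of_le (by linarith) (le_max_right _ _)
  have h3 : P.orb (u, v) 2 < P.e := by
    rw [hs.rec' 0, div_lt_iff₀ (hs.den_pos 0), orb_zero, orb_one]
    have := mul_nonneg P.he.le (add_nonneg P.hA hu)
    simp only
    nlinarith
  refine ⟨h3, ?_⟩
  have h4 := P.sol_const.diff (hs.shift 1) 0
  have d := mul_pos P.den_e (hs.den_pos 1)
  have a1 : 0 < P.A + P.B * P.e - P.α := by
    have := P.alpha_lt
    have := mul_lt_mul_of_pos_left P.m_lt_e P.B_pos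
    linarith
  have a2 : 0 < P.B * (P.α + P.e) := mul_pos P.B_pos (by linarith [P.hα, P.he])
  have a3 := mul_pos (div_pos a1 d) (sub_pos.mpr h1)
  have a4 := mul_pos (div_pos a2 d) (sub_pos.mpr h3)
  simp only [zero_add, orb_one] at h4 a3 a4 ⊢
  norm_num at h4 ⊢
  linarith

lemma dn_zero {u : ℝ} (hA : P.α ≤ P.A) (hu : 0 ≤ u) :
    (u, (0 : ℝ)) ∈ P.Adm ∧ P.Dn (P.orb (u, 0)) := by
  have hz : (u, (0 : ℝ)) ∈ P.Adm := ⟨hu, le_rfl, by have := P.hα; simp only; linarith⟩
  refine ⟨hz, ?_⟩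
  have hs := orb_sol hz
  have h2 := hs.pos 0
  rcases hs.tri with h | h | h
  · have := (hs.W_unique (hs.shift 1) h (h.shift 1) hu h2.le).2
    exact absurd this h2.ne'
  · exfalso
    have key := hs.compare (hs.shift 1) (fun n => by
      have := mul_nonneg P.B_pos.le (hs.nonneg (n + 1))
      linarith) (-1) (by simpa [orb_zero, orb_one] using hu) (by simpa [orb_one] using h2.le)
    have := le_of_tendsto_of_tendsto' h.2 h.1 fun k => by
      have := key (2 * k)
      simp at this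
      exact this
    exact absurd P.hmM (not_lt.mpr this)
  · exact h

lemma exists_dn {u : ℝ} (hu : 0 ≤ u) : ∃ v, v < P.e ∧ (u, v) ∈ P.Adm ∧ P.Dn (P.orb (u, v)) := by
  rcases le_or_gt P.α P.A with h | h
  · exact ⟨0, P.he, dn_zero h hu⟩
  · set v := min ((P.α - P.A) / P.B) (P.e / 2) with hv
    have h0 : 0 < v := lt_min (div_pos (by linarith) P.B_pos) (by linarith [P.he])
    have h1 : v < P.e := (min_le_right _ _).trans_lt (by linarith [P.he])
    have hz := adm_of_pos (P := P) hu h0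
    have hs := orb_sol hz
    refine ⟨v, h1, hz, hs.dn_iff.mpr ⟨0, h1, ?_⟩⟩
    have h2 : v * P.B ≤ P.α - P.A := (le_div_iff₀ P.B_pos).mp (min_le_left _ _)
    have := hs.one_le (n := 0) (by rw [zero_add, orb_one]; simp only; linarith)
    linarith [P.e_lt_M, P.M_lt_one]

lemma exists_W {u : ℝ} (hu : 0 ≤ u) : ∃ v, 0 < v ∧ P.W (P.orb (u, v)) := by
  obtain ⟨v1, a1, a2⟩ := exists_up (P := P) hu
  obtain ⟨v0, b1, b2, b3⟩ := exists_dn (P := P) hu
  have hsub : ∀ v ∈ Icc v0 v1, (u, v) ∈ P.Adm := by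
    intro v hv
    refine ⟨hu, b2.2.1.trans hv.1, ?_⟩
    have := mul_le_mul_of_nonneg_left hv.1 P.B_pos.le
    have := b2.2.2
    simp only at this ⊢
    linarith
  have hmap : ∀ v ∈ Icc v0 v1, Tendsto (fun w => (u, w)) (𝓝[Icc v0 v1] v) (𝓝[P.Adm] (u, v)) :=
    fun v _ => (Continuous.prodMk_right u).continuousWithinAt.tendsto_nhdsWithin hsub
  have hW : ∃ v ∈ Icc v0 v1, P.W (P.orb (u, v)) := by
    by_contra hc
    push Not at hc
    have hloc : ∀ v ∈ Icc v0 v1, ∀ᶠ w in 𝓝[Icc v0 v1] v,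
        (P.Up (P.orb (u, v)) ↔ P.Up (P.orb (u, w))) := by
      intro v hv
      rcases (orb_sol (hsub v hv)).tri with h | h | h
      · exact absurd h (hc v hv)
      · filter_upwards [(hmap v hv).eventually (up_open (hsub v hv) h)] with w hw
        exact iff_of_true h hw
      · filter_upwards [(hmap v hv).eventually (dn_open (hsub v hv) h)] with w hw
        exact iff_of_false (fun h' => not_Up_Dn h' h) (fun h' => not_Up_Dn h' hw)
    have hle : v0 ≤ v1 := (b1.trans a1).le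
    have := isPreconnected_Icc.induction₂' (fun v w => P.Up (P.orb (u, v)) ↔ P.Up (P.orb (u, w)))
      (fun v hv => (hloc v hv).mono fun w hw => ⟨hw, hw.symm⟩)
      (fun _ _ _ _ _ _ h1 h2 => h1.trans h2) (left_mem_Icc.mpr hle) (right_mem_Icc.mpr hle)
    exact not_Up_Dn (this.mpr a2) b3
  obtain ⟨v, hv, hW⟩ := hW
  refine ⟨v, ?_, hW⟩
  rcases le_or_gt P.α P.A with h | h
  · rcases (hsub v hv).2.1.eq_or_lt with h1 | h1
    · simp only at h1
      subst h1
      exact (not_W_Dn hW (dn_zero h hu).2).elim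
    · exact h1
  · have := (orb_sol (hsub v hv)).W_region hW 0
    rw [zero_add, orb_one] at this
    by_contra h1
    have h2 := mul_nonpos_of_nonneg_of_nonpos P.B_pos.le (not_lt.mp h1)
    simp only at this
    linarith

theorem exists_graph (P : Par) : ∃ φ : ℝ → ℝ, ContinuousOn φ (Ici 0) ∧ StrictMonoOn φ (Ici 0) ∧
    (∀ u, 0 ≤ u → 0 < φ u) ∧ ∀ y, P.Sol y →
      (P.W y ↔ y 1 = φ (y 0)) ∧ (P.Up y ↔ φ (y 0) < y 1) ∧ (P.Dn y ↔ y 1 < φ (y 0)) := by
  have h : ∀ u : ℝ, ∃ v, 0 ≤ u → 0 < v ∧ P.W (P.orb (u, v)) := by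
    intro u
    by_cases hu : 0 ≤ u
    · obtain ⟨v, hv⟩ := exists_W (P := P) hu
      exact ⟨v, fun _ => hv⟩
    · exact ⟨0, fun h => absurd h hu⟩
  choose φ hφ using h
  have hs : ∀ u, 0 ≤ u → P.Sol (P.orb (u, φ u)) := fun u hu => orb_sol (adm_of_pos hu (hφ u hu).1)
  have hmain : ∀ y, P.Sol y →
      (P.W y ↔ y 1 = φ (y 0)) ∧ (P.Up y ↔ φ (y 0) < y 1) ∧ (P.Dn y ↔ y 1 < φ (y 0)) := by
    intro y hy
    have a1 : φ (y 0) < y 1 → P.Up y := fun h =>
      (hs _ hy.h0).up_of_le hy (hφ _ hy.h0).2 le_rfl h.le fun h' => h.ne' h'.2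
    have a2 : y 1 < φ (y 0) → P.Dn y := fun h =>
      (hs _ hy.h0).dn_of_le hy (hφ _ hy.h0).2 le_rfl h.le fun h' => h.ne' h'.2
    have a3 : y 1 = φ (y 0) → P.W y := by
      intro h
      have b1 := (hs _ hy.h0).compare hy (fun n => ((hs _ hy.h0).W_region (hφ _ hy.h0).2 n).le) 1
        (by simp [orb_zero]) (by simp [orb_one, h])
      have b2 := (hs _ hy.h0).compare hy (fun n => ((hs _ hy.h0).W_region (hφ _ hy.h0).2 n).le) (-1)
        (by simp [orb_zero]) (by simp [orb_one, h])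
      refine Tendsto.congr (fun n => ?_) (hφ _ hy.h0).2
      have c1 := b1 n
      have c2 := b2 n
      rcases neg_one_pow_eq_or ℝ n with e | e <;> rw [e] at c1 c2 <;> linarith
    rcases lt_trichotomy (y 1) (φ (y 0)) with h | h | h
    · exact ⟨iff_of_false (fun h' => not_W_Dn h' (a2 h)) h.ne,
        iff_of_false (fun h' => not_Up_Dn h' (a2 h)) h.not_gt, iff_of_true (a2 h) h⟩
    · exact ⟨iff_of_true (a3 h) h, iff_of_false (not_W_Up (a3 h)) h.not_gt,
        iff_of_false (not_W_Dn (a3 h)) h.not_lt⟩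
    · exact ⟨iff_of_false (fun h' => not_W_Up h' (a1 h)) h.ne', iff_of_true (a1 h) h,
        iff_of_false (not_Up_Dn (a1 h)) h.not_gt⟩
  refine ⟨φ, ?_, ?_, fun u hu => (hφ u hu).1, hmain⟩
  · intro u hu
    have hmap : ∀ v, 0 < v → Tendsto (fun w => (w, v)) (𝓝[Ici 0] u) (𝓝[P.Adm] (u, v)) :=
      fun v hv => (Continuous.prodMk_left v).continuousWithinAt.tendsto_nhdsWithin
        fun w hw => adm_of_pos hw hv
    refine tendsto_order.mpr ⟨fun v hv => ?_, fun v hv => ?_⟩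
    · rcases le_or_gt v 0 with h0 | h0
      · filter_upwards [self_mem_nhdsWithin] with w hw using h0.trans_lt (hφ w hw).1
      · have hz := adm_of_pos (P := P) hu h0
        filter_upwards [(hmap v h0).eventually (dn_open hz ((hmain _ (orb_sol hz)).2.2.mpr hv)),
          self_mem_nhdsWithin] with w hw1 hw2
        exact (hmain _ (orb_sol (adm_of_pos hw2 h0))).2.2.mp hw1
    · have h0 : 0 < v := (hφ u hu).1.trans hv
      have hz := adm_of_pos (P := P) hu h0
      filter_upwards [(hmap v h0).eventually (up_open hz ((hmain _ (orb_sol hz)).2.1.mpr hv)),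
        self_mem_nhdsWithin] with w hw1 hw2
      exact (hmain _ (orb_sol (adm_of_pos hw2 h0))).2.1.mp hw1
  · intro u hu u' hu' huu
    by_contra hc
    exact huu.ne ((hs u' hu').W_unique (hs u hu) (hφ u' hu').2 (hφ u hu).2 huu.le
      (not_lt.mp hc)).1

end Par

end Pool.Agent.MP_a0c75d_an.H31
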