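import Mathlib
import Pool.Agent.MP_a0c75d_an.H31.Basin

/-! The functional equation of the separating curve, its uniqueness, and the explicit
parameters. -/

open Filter Topology Set

namespace Pool.Agent.MP_a0c75d_an.H31

namespace Par

theorem graph_full (P : Par) : ∃ φ : ℝ → ℝ, ContinuousOn φ (Ici 0) ∧ StrictMonoOn φ (Ici 0) ∧
    φ P.e = P.e ∧
    (∀ u, 0 ≤ u → 0 < φ u ∧ φ (φ u) = (P.α + u) / (P.A + P.B * φ u + u)) ∧
    (∀ ψ : ℝ → ℝ, MonotoneOn ψ (Ici 0) →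
      (∀ u, 0 ≤ u → 0 < ψ u ∧ ψ (ψ u) = (P.α + u) / (P.A + P.B * ψ u + u)) → EqOn ψ φ (Ici 0)) ∧
    ∀ y, P.Sol y →
      (P.W y ↔ y 1 = φ (y 0)) ∧ (P.Up y ↔ φ (y 0) < y 1) ∧ (P.Dn y ↔ y 1 < φ (y 0)) := by
  obtain ⟨φ, h1, h2, h3, h4⟩ := P.exists_graph
  refine ⟨φ, h1, h2, ((h4 _ P.sol_const).1.mp tendsto_const_nhds).symm, fun u hu => ⟨h3 u hu, ?_⟩,
    fun ψ hψ1 hψ2 u hu => ?_, h4⟩
  · have hs := orb_sol (adm_of_pos (P := P) hu (h3 u hu))
    exact ((h4 _ (hs.shift 1)).1.mp (((h4 _ hs).1.mpr rfl).shift 1)).symm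
  · have hnn : ∀ n, 0 ≤ ψ^[n] u := by
      intro n
      induction n with
      | zero => exact hu
      | succ n ih => rw [Function.iterate_succ_apply']; exact (hψ2 _ ih).1.le
    have hs : P.Sol fun n => ψ^[n] u := by
      refine ⟨hnn 0, hnn 1, (adm_of_pos (P := P) hu (hψ2 u hu).1).2.2, fun n => ?_⟩
      simp only [Function.iterate_succ_apply']
      exact (hψ2 _ (hnn n)).2
    have hmono : (∀ n, ψ^[n] u ≤ ψ^[n + 1] u) ∨ ∀ n, ψ^[n + 1] u ≤ ψ^[n] u := by
      rcases le_total u (ψ u) with h | h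
      · left
        intro n
        induction n with
        | zero => exact h
        | succ n ih =>
          rw [Function.iterate_succ_apply' ψ (n + 1), Function.iterate_succ_apply' ψ n]
          rw [Function.iterate_succ_apply' ψ n] at ih
          exact hψ1 (hnn n) (hψ2 _ (hnn n)).1.le ih
      · right
        intro n
        induction n with
        | zero => exact h
        | succ n ih =>
          rw [Function.iterate_succ_apply' ψ (n + 1), Function.iterate_succ_apply' ψ n]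
          rw [Function.iterate_succ_apply' ψ n] at ih
          exact hψ1 (hψ2 _ (hnn n)).1.le (hnn n) ih
    have key : ∀ {p q : ℝ}, Tendsto (fun k => ψ^[2 * k] u) atTop (𝓝 p) →
        Tendsto (fun k => ψ^[2 * k + 1] u) atTop (𝓝 q) → p = q := by
      intro p q hp hq
      have hp' : Tendsto (fun k => ψ^[2 * k + 1 + 1] u) atTop (𝓝 p) :=
        (tendsto_add_atTop_iff_nat (f := fun k => ψ^[2 * k] u) 1).mpr hp
      rcases hmono with h | h
      · exact le_antisymm (le_of_tendsto_of_tendsto' hp hq fun k => h _)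
          (le_of_tendsto_of_tendsto' hq hp' fun k => h _)
      · exact le_antisymm (le_of_tendsto_of_tendsto' hp' hq fun k => h _)
          (le_of_tendsto_of_tendsto' hq hp fun k => h _)
    rcases hs.tri with h | h | h
    · exact (h4 _ hs).1.mp h
    · exact absurd (key h.1 h.2) P.hmM.ne
    · exact absurd (key h.1 h.2) P.hmM.ne'

end Par

theorem exists_par {α A B : ℝ} (hα : 0 < α) (hB : 1 < B) (hA0 : 0 ≤ A) (hA1 : A < 1)
    (hH : α < (B - 1) * (1 - A) ^ 2 / 4) : ∃ P : Par, P.α = α ∧ P.A = A ∧ P.B = B ∧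
      P.e = (1 - A + Real.sqrt ((1 - A) ^ 2 + 4 * α * (1 + B))) / (2 * (1 + B)) ∧
      P.m = (1 - A - Real.sqrt ((1 - A) ^ 2 - 4 * α / (B - 1))) / 2 ∧
      P.M = (1 - A + Real.sqrt ((1 - A) ^ 2 - 4 * α / (B - 1))) / 2 := by
  have hB1 : 0 < B - 1 := by linarith
  have hq : 0 < 4 * α / (B - 1) := by positivity
  have hΔ : 0 < (1 - A) ^ 2 - 4 * α / (B - 1) := by
    rw [sub_pos, div_lt_iff₀ hB1]; linarith
  set s := Real.sqrt ((1 - A) ^ 2 - 4 * α / (B - 1)) with hs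
  have hs0 : 0 < s := Real.sqrt_pos.mpr hΔ
  have hs2 : s ^ 2 = (1 - A) ^ 2 - 4 * α / (B - 1) := Real.sq_sqrt hΔ.le
  have hs1 : s < 1 - A := by
    apply lt_of_pow_lt_pow_left₀ 2 (by linarith)
    linarith
  set t := Real.sqrt ((1 - A) ^ 2 + 4 * α * (1 + B)) with ht
  have ht0 : 0 ≤ t := Real.sqrt_nonneg _
  have hB2 : 0 < 1 + B := by linarith
  have ht2 : t ^ 2 = (1 - A) ^ 2 + 4 * α * (1 + B) := Real.sq_sqrt (by positivity)
  refine ⟨⟨α, A, B, (1 - A + t) / (2 * (1 + B)), (1 - A - s) / 2, (1 - A + s) / 2, hα, hB, hA0,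
    by linarith, by linarith, by ring, ?_, div_pos (by linarith) (by linarith), ?_⟩,
    rfl, rfl, rfl, rfl, rfl, rfl⟩
  · have : (1 - A - s) / 2 * ((1 - A + s) / 2) = α / (B - 1) := by
      have e : 4 * α / (B - 1) = 4 * (α / (B - 1)) := by ring
      rw [e] at hs2
      linear_combination (-1 / 4) * hs2
    rw [this]
    field_simp
  · field_simp
    linear_combination (1 + B) * ht2

lemma pair_iff {x : ℤ → ℝ} {a b : ℝ} :
    Tendsto (fun n : ℕ => (x (2 * n), x (2 * n + 1))) atTop (𝓝 (a, b)) ↔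
      Tendsto (fun k : ℕ => x (((2 * k : ℕ) : ℤ) - 1)) atTop (𝓝 b) ∧
      Tendsto (fun k : ℕ => x (((2 * k + 1 : ℕ) : ℤ) - 1)) atTop (𝓝 a) := by
  rw [Prod.tendsto_iff, and_comm,
    ← tendsto_add_atTop_iff_nat (f := fun k : ℕ => x (((2 * k : ℕ) : ℤ) - 1)) 1]
  have e1 : ∀ k : ℕ, ((2 * (k + 1) : ℕ) : ℤ) - 1 = 2 * k + 1 := fun k => by push_cast; ring
  have e2 : ∀ k : ℕ, ((2 * k + 1 : ℕ) : ℤ) - 1 = 2 * k := fun k => by push_cast; ring
  simp only [e1, e2]

end Pool.Agent.MP_a0c75d_an.H31
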