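import Mathlib
import Pool.Agent.MP_a0c75d_an.H31.Main

open Filter Topology

namespace Pool.Agent.MP_a0c75d_an.H31.OldBasin

/-- The equilibrium. -/
noncomputable def equil (α A B : ℝ) : ℝ :=
  (1 - A + Real.sqrt ((1 - A) ^ 2 + 4 * α * (1 + B))) / (2 * (1 + B))

/-- The smaller point `m` of the two-cycle. -/
noncomputable def cycLow (α A B : ℝ) : ℝ :=
  (1 - A - Real.sqrt ((1 - A) ^ 2 - 4 * α / (B - 1))) / 2

/-- The larger point `M` of the two-cycle. -/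
noncomputable def cycHigh (α A B : ℝ) : ℝ :=
  (1 - A + Real.sqrt ((1 - A) ^ 2 - 4 * α / (B - 1))) / 2

theorem result (α A B : ℝ) (hα : 0 < α) (hB : 1 < B) (hA0 : 0 ≤ A) (hA1 : A < 1)
    (hH : α < (B - 1) * (1 - A) ^ 2 / 4) :
    ∃ φ : ℝ → ℝ, ContinuousOn φ (Set.Ici 0) ∧ StrictMonoOn φ (Set.Ici 0) ∧
      φ (equil α A B) = equil α A B ∧
      (∀ u, 0 ≤ u → 0 < φ u ∧ φ (φ u) = (α + u) / (A + B * φ u + u)) ∧
      (∀ ψ : ℝ → ℝ, MonotoneOn ψ (Set.Ici 0) →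
        (∀ u, 0 ≤ u → 0 < ψ u ∧ ψ (ψ u) = (α + u) / (A + B * ψ u + u)) →
        Set.EqOn ψ φ (Set.Ici 0)) ∧
      ∀ x : ℤ → ℝ, 0 ≤ x (-1) → 0 ≤ x 0 → (A = 0 → (x (-1), x 0) ≠ (0, 0)) →
        (∀ n : ℕ, x (n + 1) = (α + x (n - 1)) / (A + B * x n + x (n - 1))) →
        (Tendsto (fun n : ℕ => x n) atTop (𝓝 (equil α A B)) ↔ x 0 = φ (x (-1))) ∧
        (Tendsto (fun n : ℕ => (x (2 * n), x (2 * n + 1))) atTop
          (𝓝 (cycLow α A B, cycHigh α A B)) ↔ x 0 < φ (x (-1))) ∧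
        (Tendsto (fun n : ℕ => (x (2 * n), x (2 * n + 1))) atTop
          (𝓝 (cycHigh α A B, cycLow α A B)) ↔ φ (x (-1)) < x 0) := by
  obtain ⟨P, rfl, rfl, rfl, e1, e2, e3⟩ :=
    Pool.Agent.MP_a0c75d_an.H31.exists_par hα hB hA0 hA1 hH
  obtain ⟨φ, h1, h2, h3, h4, h5, h6⟩ := P.graph_full
  rw [equil, cycLow, cycHigh, ← e1, ← e2, ← e3]
  refine ⟨φ, h1, h2, h3, h4, h5, fun x a1 a2 a3 a4 => ?_⟩
  have hs : P.Sol fun n : ℕ => x ((n : ℤ) - 1) := by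
    refine ⟨a1, a2, ?_, fun n => ?_⟩
    · show 0 < P.A + P.B * x 0 + x (-1)
      have b1 := mul_nonneg P.B_pos.le a2
      by_contra hc
      have b2 : P.B * x 0 = 0 := by linarith
      have b3 := (mul_eq_zero.mp b2).resolve_left P.B_pos.ne'
      exact a3 (by linarith) (Prod.ext (by simp only; linarith) b3)
    · have c1 : ((n + 2 : ℕ) : ℤ) - 1 = n + 1 := by push_cast; ring
      have c2 : ((n + 1 : ℕ) : ℤ) - 1 = n := by push_cast; ring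
      simp only [c1, c2]
      exact a4 n
  obtain ⟨k1, k2, k3⟩ := h6 _ hs
  refine ⟨Iff.trans ?_ k1, Pool.Agent.MP_a0c75d_an.H31.pair_iff.trans k3,
    Pool.Agent.MP_a0c75d_an.H31.pair_iff.trans k2⟩
  rw [Pool.Agent.MP_a0c75d_an.H31.Par.W,
    ← tendsto_add_atTop_iff_nat (f := fun n : ℕ => x ((n : ℤ) - 1)) 1]
  simp

end Pool.Agent.MP_a0c75d_an.H31.OldBasin
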